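import Pool.Agent.H62P.Frame

/-! Absorption of two runs: in the class with optional vertices, a set `R1 ∪ R2` of vertices that
have private neighbours inside each part is absorbed at no cost. -/

namespace Pool.Agent.H49X

open List Pool.Agent.TF82 Pool.Agent.TFC Pool.Agent.TFB Pool.Agent.H62P

universe u

set_option linter.unusedSectionVars false
set_option linter.unusedVariables false

variable {V : Type u} [DecidableEq V]

/-- a path between two consecutive vertices of a cycle -/
theorem ins_path {G : SimpleGraph V} {L : List (List V)} (hL : Fam G L) {Q : List V} {a b w : V}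
    (hQ : Seg G Q a b) (hQn : Q.Nodup) (hQd : ∀ x ∈ Q, x ∉ L.flatten) (hw : w ∈ L.flatten)
    (h1 : G.Adj (prv L w) a) (h2 : G.Adj b w) :
    ∃ L2, Fam G L2 ∧ L2.length ≤ L.length ∧ ∀ x, x ∈ L2.flatten ↔ x ∈ L.flatten ∨ x ∈ Q := by
  obtain ⟨P, L', hP, h3, hperm, hL', hlen⟩ := place1 hL hw
  have hnod : (P ++ L'.flatten).Nodup := hperm.nodup_iff.1 hL.nod
  have hPm : ∀ x ∈ P, x ∈ L.flatten := fun x hx => hperm.mem_iff.2 (by simp [hx])
  have hLm : ∀ x ∈ L'.flatten, x ∈ L.flatten := fun x hx => hperm.mem_iff.2 (by simp [hx])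
  have hseg := hP.seg hL hPm
  have hch : (prv L w :: (Q ++ [w])).IsChain G.Adj := by
    rw [List.isChain_cons, List.isChain_append]
    refine ⟨?_, hQ.ch, by simp, ?_⟩
    · intro y hy
      rw [List.head?_append, hQ.hd] at hy
      simp only [Option.some_or, Option.mem_def, Option.some.injEq] at hy
      subst hy
      exact h1
    · intro x hx y hy
      rw [hQ.lt] at hx
      simp only [Option.mem_def, Option.some.injEq] at hx
      simp only [List.head?_cons, Option.mem_def, Option.some.injEq] at hy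
      subst hx hy
      exact h2
  have hPQ : (P ++ Q).Nodup := by
    rw [List.nodup_append]
    refine ⟨(List.nodup_append.1 hnod).1, hQn, ?_⟩
    rintro x hx y hy rfl
    exact hQd x hy (hPm x hx)
  have hcyc : CycL G (P ++ Q) := close_seg hseg hch hPQ (by omega)
  refine ⟨(P ++ Q) :: L', ⟨?_, ?_⟩, ?_, ?_⟩
  · intro c hc
    rcases List.mem_cons.1 hc with rfl | hc
    · exact hcyc
    · exact hL' c hc
  · rw [List.flatten_cons, List.nodup_append]
    refine ⟨hcyc.1, (List.nodup_append.1 hnod).2.1, ?_⟩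
    rintro x hx y hy rfl
    rcases List.mem_append.1 hx with hx | hx
    · exact (List.nodup_append.1 hnod).2.2 x hx x hy rfl
    · exact hQd x hx (hLm x hy)
  · simp; omega
  · intro x
    rw [List.flatten_cons, List.mem_append, List.mem_append, hperm.mem_iff, List.mem_append]
    exact or_right_comm

/-- two adjacent predecessors and a path between the two vertices -/
theorem cross_path {G : SimpleGraph V} {L : List (List V)} (hL : Fam G L) {Q : List V}
    {a b w1 w2 : V} (hQ : Seg G Q a b) (hQn : Q.Nodup) (hQd : ∀ x ∈ Q, x ∉ L.flatten)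
    (hw1 : w1 ∈ L.flatten) (hw2 : w2 ∈ L.flatten) (hne : w1 ≠ w2)
    (h1 : G.Adj b w1) (h2 : G.Adj w2 a) (h : G.Adj (prv L w1) (prv L w2)) :
    ∃ L2, Fam G L2 ∧ L2.length ≤ L.length ∧ ∀ x, x ∈ L2.flatten ↔ x ∈ L.flatten ∨ x ∈ Q := by
  obtain ⟨P, R, L', hperm, hL', hlen, h3, hPR⟩ := place2 hL hw1 hw2 hne
  have hnod : (P ++ (R ++ L'.flatten)).Nodup := hperm.nodup_iff.1 hL.nod
  have hPm : ∀ x ∈ P, x ∈ L.flatten := fun x hx => hperm.mem_iff.2 (by simp [hx])
  have hRm : ∀ x ∈ R, x ∈ L.flatten := fun x hx => hperm.mem_iff.2 (by simp [hx])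
  have hLm : ∀ x ∈ L'.flatten, x ∈ L.flatten := fun x hx => hperm.mem_iff.2 (by simp [hx])
  have hch : (w2 :: (Q ++ [w1])).IsChain G.Adj := by
    rw [List.isChain_cons, List.isChain_append]
    refine ⟨?_, hQ.ch, by simp, ?_⟩
    · intro y hy
      rw [List.head?_append, hQ.hd] at hy
      simp only [Option.some_or, Option.mem_def, Option.some.injEq] at hy
      subst hy
      exact h2
    · intro x hx y hy
      rw [hQ.lt] at hx
      simp only [Option.mem_def, Option.some.injEq] at hx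
      simp only [List.head?_cons, Option.mem_def, Option.some.injEq] at hy
      subst hx hy
      exact h1
  have key : ∀ s t, G.Adj s t → Seg G P w1 s → Seg G R w2 t →
      CycL G ((P ++ R.reverse) ++ Q) := by
    intro s t hst hsP hsR
    have hsR' := hsR.rev
    have hs := link_seg hsP (X := []) (by simpa using hst) hsR'
    simp only [List.nil_append] at hs
    refine close_seg hs hch ?_ ?_
    · rw [List.nodup_append]
      refine ⟨?_, hQn, ?_⟩
      · have h5 : (P ++ R).Nodup := by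
          rw [← List.append_assoc] at hnod
          exact (List.nodup_append.1 hnod).1
        exact (((List.Perm.refl P).append (List.reverse_perm R)).nodup_iff).2 h5
      · rintro x hx y hy rfl
        rcases List.mem_append.1 hx with hx | hx
        · exact hQd x hy (hPm _ hx)
        · exact hQd x hy (hRm _ (List.mem_reverse.1 hx))
    · simp only [List.length_append, List.length_reverse]; omega
  have hcyc : CycL G ((P ++ R.reverse) ++ Q) := by
    rcases hPR with ⟨hP, hR⟩ | ⟨hP, hR⟩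
    · exact key _ _ h.symm (hP.seg hL hPm) (hR.seg hL hRm)
    · exact key _ _ h (hP.seg hL hPm) (hR.seg hL hRm)
  refine ⟨((P ++ R.reverse) ++ Q) :: L', ⟨?_, ?_⟩, ?_, ?_⟩
  · intro c hc
    rcases List.mem_cons.1 hc with rfl | hc
    · exact hcyc
    · exact hL' c hc
  · rw [List.flatten_cons, List.nodup_append]
    rw [← List.append_assoc] at hnod
    refine ⟨hcyc.1, (List.nodup_append.1 hnod).2.1, ?_⟩
    rintro x hx y hy rfl
    rcases List.mem_append.1 hx with hx | hx
    · refine (List.nodup_append.1 hnod).2.2 x ?_ x hy rfl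
      simpa using hx
    · exact hQd x hx (hLm _ hy)
  · simp; omega
  · intro x
    rw [List.flatten_cons, List.mem_append, List.mem_append, List.mem_append, hperm.mem_iff,
      List.mem_append, List.mem_append, List.mem_reverse]
    generalize (x ∈ L'.flatten) = e
    tauto

/-- AR2: two runs are absorbed at no cost. -/
theorem ar2 {G : SimpleGraph V} [DecidableRel G.Adj] {U W R1 R2 : Finset V} (hW : W ⊆ U)
    (hR1 : R1 ⊆ U \ W) (hR2 : R2 ⊆ U \ W) (hC : CW G U W) (B : V → Finset V)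
    (hB : ∀ x ∈ R1 ∪ R2, B x ⊆ U ∧ Disjoint (B x) (R1 ∪ R2) ∧ 2 ≤ (B x).card ∧
      ∀ y ∈ B x, G.Adj x y)
    (h1 : ∀ x ∈ R1, ∀ v ∈ R1, x ≠ v → Disjoint (B x) (B v) ∧ ∀ y ∈ B x, ¬ G.Adj v y)
    (h2 : ∀ x ∈ R2, ∀ v ∈ R2, x ≠ v → Disjoint (B x) (B v) ∧ ∀ y ∈ B x, ¬ G.Adj v y)
    {k : ℕ} (hk : CovW G U (W ∪ (R1 ∪ R2)) k) : CovW G U W k := by
  classical
  suffices H : ∀ n : ℕ, ∀ L : List (List V), L.length ≤ k → Fam G L → (∀ x ∈ L.flatten, x ∈ U) →
      (∀ x ∈ U \ (W ∪ (R1 ∪ R2)), x ∈ L.flatten) →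
      ((R1 ∪ R2).filter (fun x => x ∉ L.flatten)).card = n → CovW G U W k by
    obtain ⟨L, a1, a2, a3, a4⟩ := hk
    exact H _ L a1 a2 a3 a4 rfl
  intro n
  induction n using Nat.strong_induction_on with
  | _ n ih =>
  intro L hLk hL hLU hLc hn
  set X : Finset V := (R1 ∪ R2).filter (fun x => x ∉ L.flatten) with hX
  have hXm : ∀ x, x ∈ X ↔ x ∈ R1 ∪ R2 ∧ x ∉ L.flatten := by
    intro x; rw [hX, Finset.mem_filter]
  rcases X.eq_empty_or_nonempty with hX0 | ⟨v0, hv0⟩
  · refine ⟨L, hLk, hL, hLU, fun x hx => ?_⟩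
    by_contra hxL
    by_cases hxR : x ∈ R1 ∪ R2
    · have : x ∈ X := (hXm x).2 ⟨hxR, hxL⟩
      rw [hX0] at this
      exact absurd this (Finset.notMem_empty x)
    · refine hxL (hLc x ?_)
      rw [Finset.mem_sdiff] at hx ⊢
      refine ⟨hx.1, ?_⟩
      rw [Finset.mem_union]
      tauto
  -- no improvement through a nonempty path inside X
  by_cases hgood : ∃ (L2 : List (List V)) (Q : List V), Q ≠ [] ∧ (∀ x ∈ Q, x ∈ X) ∧ Fam G L2 ∧
      L2.length ≤ L.length ∧ ∀ x, x ∈ L2.flatten ↔ x ∈ L.flatten ∨ x ∈ Q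
  · obtain ⟨L2, Q, q0, q1, q2, q3, q4⟩ := hgood
    obtain ⟨z, hz⟩ := List.exists_mem_of_ne_nil Q q0
    refine ih _ ?_ L2 (q3.trans hLk) q2 ?_ ?_ rfl
    · rw [← hn]
      apply Finset.card_lt_card
      rw [Finset.ssubset_iff_of_subset]
      · refine ⟨z, q1 z hz, ?_⟩
        rw [Finset.mem_filter]
        rintro ⟨_, h⟩
        exact h ((q4 z).2 (Or.inr hz))
      · intro x hx
        rw [Finset.mem_filter] at hx
        exact (hXm x).2 ⟨hx.1, fun h => hx.2 ((q4 x).2 (Or.inl h))⟩
    · intro x hx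
      rcases (q4 x).1 hx with hx | hx
      · exact hLU x hx
      · have := ((hXm x).1 (q1 x hx)).1
        rcases Finset.mem_union.1 this with h | h
        · exact (Finset.mem_sdiff.1 (hR1 h)).1
        · exact (Finset.mem_sdiff.1 (hR2 h)).1
    · intro x hx
      exact (q4 x).2 (Or.inl (hLc x hx))
  exfalso
  -- the component of v0
  set D : Finset V := X.filter (fun x => Reach G X v0 x) with hD
  have hDm : ∀ x, x ∈ D ↔ x ∈ X ∧ Reach G X v0 x := by
    intro x; rw [hD, Finset.mem_filter]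
  have hv0D : v0 ∈ D := (hDm v0).2 ⟨hv0, Relation.ReflTransGen.refl⟩
  have hDL : ∀ x ∈ D, x ∉ L.flatten := fun x hx => ((hXm x).1 ((hDm x).1 hx).1).2
  have hDU : ∀ x ∈ D, x ∈ U \ W := by
    intro x hx
    have := ((hXm x).1 ((hDm x).1 hx).1).1
    rcases Finset.mem_union.1 this with h | h
    · exact hR1 h
    · exact hR2 h
  have hpath : ∀ x ∈ D, ∀ y ∈ D, ∃ Q : List V, Q ≠ [] ∧ Q.Nodup ∧ Seg G Q x y ∧ ∀ z ∈ Q, z ∈ X := by
    intro x hx y hy
    have hxy : Reach G X x y := Relation.ReflTransGen.trans ((hDm x).1 hx).2.symm ((hDm y).1 hy).2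
    obtain ⟨q, q1, q2, q3, q4, q5⟩ := hxy.path ((hDm x).1 hx).1
    refine ⟨q, ?_, q1, ⟨q2, q3, q4⟩, q5⟩
    rintro rfl
    simp at q3
  have hDadj : ∀ x ∈ D, ∀ y ∈ X, G.Adj x y → y ∈ D := by
    intro x hx y hy hxy
    exact (hDm y).2 ⟨hy, Relation.ReflTransGen.tail ((hDm x).1 hx).2 ⟨((hDm x).1 hx).1, hy, hxy⟩⟩
  -- neighbours on the cover
  set N : Finset V := L.flatten.toFinset.filter (fun w => ∃ x ∈ D, G.Adj x w) with hN
  have hNm : ∀ w, w ∈ N ↔ w ∈ L.flatten ∧ ∃ x ∈ D, G.Adj x w := by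
    intro w; rw [hN, Finset.mem_filter, List.mem_toFinset]
  set P : Finset V := (N.image (prv L)) \ W with hP
  have hPm : ∀ p ∈ P, ∃ w ∈ L.flatten, (∃ x ∈ D, G.Adj x w) ∧ prv L w = p := by
    intro p hp
    obtain ⟨w, hw, rfl⟩ := Finset.mem_image.1 (Finset.mem_sdiff.1 hp).1
    exact ⟨w, ((hNm w).1 hw).1, ((hNm w).1 hw).2, rfl⟩
  have hPL : ∀ p ∈ P, p ∈ L.flatten := by
    intro p hp
    obtain ⟨w, hw, _, rfl⟩ := hPm p hp
    exact prv_mem hL hw
  have hDP : ∀ v ∈ D, ∀ p ∈ P, ¬ G.Adj v p := by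
    intro v hv p hp hadj
    obtain ⟨w, hw, ⟨x, hx, hxw⟩, rfl⟩ := hPm p hp
    obtain ⟨Q, q0, q1, q2, q3⟩ := hpath v hv x hx
    obtain ⟨L2, a1, a2, a3⟩ := ins_path hL q2 q1 (fun z hz => ((hXm z).1 (q3 z hz)).2) hw hadj.symm
      hxw
    exact hgood ⟨L2, Q, q0, q3, a1, a2, a3⟩
  have hPP : ∀ p ∈ P, ∀ p' ∈ P, p ≠ p' → ¬ G.Adj p p' := by
    intro p hp p' hp' hne hadj
    obtain ⟨w, hw, ⟨x, hx, hxw⟩, rfl⟩ := hPm p hp
    obtain ⟨w', hw', ⟨x', hx', hxw'⟩, rfl⟩ := hPm p' hp'
    obtain ⟨Q, q0, q1, q2, q3⟩ := hpath x' hx' x hx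
    have hww : w ≠ w' := by
      rintro rfl
      exact hne rfl
    obtain ⟨L2, a1, a2, a3⟩ := cross_path hL q2 q1 (fun z hz => ((hXm z).1 (q3 z hz)).2) hw hw' hww
      hxw hxw'.symm hadj
    exact hgood ⟨L2, Q, q0, q3, a1, a2, a3⟩
  -- uncovered optional vertices
  set W' : Finset V := W.filter (fun x => x ∉ L.flatten) with hW'
  set T : V → Finset V := fun v => (N ∪ W').filter (fun y => ¬ G.Adj v y) with hT
  have hcI : (N.image (prv L)).card = N.card := by
    refine Finset.card_image_of_injOn ?_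
    intro a ha b hb hab
    exact prv_inj hL ((hNm a).1 (Finset.mem_coe.1 ha)).1 ((hNm b).1 (Finset.mem_coe.1 hb)).1 hab
  have hImL : ∀ p ∈ N.image (prv L), p ∈ L.flatten := by
    intro p hp
    obtain ⟨w, hw, rfl⟩ := Finset.mem_image.1 hp
    exact prv_mem hL ((hNm w).1 hw).1
  have hNP : N.card ≤ P.card + (W.filter (fun x => x ∈ L.flatten)).card := by
    rw [← hcI]
    have : N.image (prv L) ⊆ P ∪ (W.filter (fun x => x ∈ L.flatten)) := by
      intro p hp
      by_cases hpW : p ∈ W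
      · exact Finset.mem_union_right _ (Finset.mem_filter.2 ⟨hpW, hImL p hp⟩)
      · exact Finset.mem_union_left _ (Finset.mem_sdiff.2 ⟨hp, hpW⟩)
    exact (Finset.card_le_card this).trans (Finset.card_union_le _ _)
  have hWsplit := Finset.card_filter_add_card_filter_not (s := W) (fun x => x ∈ L.flatten)
  have hNW : Disjoint N W' := by
    rw [Finset.disjoint_left]
    intro x hx hx'
    exact (Finset.mem_filter.1 hx').2 ((hNm x).1 hx).1
  have hkey : ∀ v ∈ D, (T v).card + 2 ≤ (D.filter (fun y => G.Adj v y)).card := by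
    intro v hv
    have hvP : v ∉ P := fun h => hDL v hv (hPL v h)
    have hsub : insert v P ⊆ U \ W := by
      intro x hx
      rcases Finset.mem_insert.1 hx with rfl | hx
      · exact hDU _ hv
      · exact Finset.mem_sdiff.2 ⟨hLU _ (hPL x hx), (Finset.mem_sdiff.1 hx).2⟩
    have hind : G.IsIndepSet ((insert v P : Finset V) : Set V) := by
      intro a ha b hb hab
      rw [Finset.mem_coe, Finset.mem_insert] at ha hb
      rcases ha with rfl | ha <;> rcases hb with rfl | hb
      · exact absurd rfl hab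
      · exact hDP _ hv b hb
      · intro h; exact hDP _ hv a ha h.symm
      · exact hPP a ha b hb hab
    have key := hC _ hsub hind v (Finset.mem_insert_self _ _)
    rw [Finset.card_insert_of_notMem hvP] at key
    have h3 : dU G U v ≤ (D.filter (fun y => G.Adj v y)).card +
        ((N ∪ W').filter (fun y => G.Adj v y)).card := by
      unfold dU
      have : U.filter (fun w => G.Adj v w) ⊆ D.filter (fun y => G.Adj v y) ∪
          (N ∪ W').filter (fun y => G.Adj v y) := by
        intro w hw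
        rw [Finset.mem_filter] at hw
        by_cases hwL : w ∈ L.flatten
        · exact Finset.mem_union_right _ (Finset.mem_filter.2
            ⟨Finset.mem_union_left _ ((hNm w).2 ⟨hwL, v, hv, hw.2⟩), hw.2⟩)
        · by_cases hwW : w ∈ W
          · exact Finset.mem_union_right _ (Finset.mem_filter.2
              ⟨Finset.mem_union_right _ (Finset.mem_filter.2 ⟨hwW, hwL⟩), hw.2⟩)
          · have hwX : w ∈ X := by
              refine (hXm w).2 ⟨?_, hwL⟩
              by_contra hwR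
              refine hwL (hLc w (Finset.mem_sdiff.2 ⟨hw.1, ?_⟩))
              rw [Finset.mem_union]
              tauto
            exact Finset.mem_union_left _ (Finset.mem_filter.2 ⟨hDadj v hv w hwX hw.2, hw.2⟩)
      exact (Finset.card_le_card this).trans (Finset.card_union_le _ _)
    have h4 := Finset.card_filter_add_card_filter_not (s := N ∪ W') (fun y => G.Adj v y)
    rw [Finset.card_union_of_disjoint hNW] at h4
    have h5 : (T v).card = ((N ∪ W').filter (fun y => ¬ G.Adj v y)).card := rfl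
    have h6 : W'.card = (W.filter (fun x => x ∉ L.flatten)).card := rfl
    omega
  -- the private neighbours
  have hpriv : ∀ (S : Finset V), S ⊆ R1 ∪ R2 →
      (∀ x ∈ S, ∀ v ∈ S, x ≠ v → Disjoint (B x) (B v) ∧ ∀ y ∈ B x, ¬ G.Adj v y) →
      ∀ v ∈ D, v ∈ S → 2 * (D ∩ S).card ≤ (T v).card + 2 := by
    intro S hS hS2 v hv hvS
    have hsub : ((D ∩ S).erase v).biUnion B ⊆ T v := by
      intro y hy
      obtain ⟨x, hx, hyx⟩ := Finset.mem_biUnion.1 hy
      rw [Finset.mem_erase, Finset.mem_inter] at hx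
      obtain ⟨b1, b2, b3, b4⟩ := hB x (hS hx.2.2)
      rw [hT]
      refine Finset.mem_filter.2 ⟨?_, (hS2 x hx.2.2 v hvS hx.1).2 y hyx⟩
      rw [Finset.mem_union]
      by_cases hyL : y ∈ L.flatten
      · exact Or.inl ((hNm y).2 ⟨hyL, x, hx.2.1, b4 y hyx⟩)
      · right
        refine Finset.mem_filter.2 ⟨?_, hyL⟩
        by_contra hyW
        refine hyL (hLc y (Finset.mem_sdiff.2 ⟨b1 hyx, ?_⟩))
        rw [Finset.mem_union]
        rintro (h | h)
        · exact hyW h
        · exact Finset.disjoint_left.1 b2 hyx h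
    have hcard := Finset.card_le_card hsub
    rw [Finset.card_biUnion] at hcard
    · have h5 : ∑ x ∈ (D ∩ S).erase v, 2 ≤ ∑ x ∈ (D ∩ S).erase v, (B x).card := by
        apply Finset.sum_le_sum
        intro x hx
        rw [Finset.mem_erase, Finset.mem_inter] at hx
        exact (hB x (hS hx.2.2)).2.2.1
      rw [Finset.sum_const, smul_eq_mul, Finset.card_erase_of_mem (Finset.mem_inter.2 ⟨hv, hvS⟩)]
        at h5
      omega
    · intro x hx y hy hxy
      rw [Finset.mem_coe, Finset.mem_erase, Finset.mem_inter] at hx hy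
      exact (hS2 x hx.2.2 y hy.2.2 hxy).1
  have hDcard : D.card ≤ (D ∩ R1).card + (D ∩ R2).card := by
    have : D ⊆ (D ∩ R1) ∪ (D ∩ R2) := by
      intro x hx
      have := ((hXm x).1 ((hDm x).1 hx).1).1
      rw [Finset.mem_union, Finset.mem_inter, Finset.mem_inter]
      rcases Finset.mem_union.1 this with h | h
      · exact Or.inl ⟨hx, h⟩
      · exact Or.inr ⟨hx, h⟩
    exact (Finset.card_le_card this).trans (Finset.card_union_le _ _)
  have hdeg : ∀ v ∈ D, (D.filter (fun y => G.Adj v y)).card + 1 ≤ D.card := by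
    intro v hv
    have : D.filter (fun y => G.Adj v y) ⊆ D.erase v := by
      intro w hw
      rw [Finset.mem_filter] at hw
      exact Finset.mem_erase.2 ⟨fun h => G.loopless.irrefl _ (h ▸ hw.2), hw.1⟩
    have h1 := Finset.card_le_card this
    rw [Finset.card_erase_of_mem hv] at h1
    have : 1 ≤ D.card := Finset.card_pos.2 ⟨v, hv⟩
    omega
  have hA : ∀ v ∈ D, v ∈ R1 → (D ∩ R1).card + 1 ≤ (D ∩ R2).card := by
    intro v hv hv1
    have e1 := hpriv R1 Finset.subset_union_left h1 v hv hv1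
    have e2 := hkey v hv
    have e3 := hdeg v hv
    omega
  have hA' : ∀ v ∈ D, v ∈ R2 → (D ∩ R2).card + 1 ≤ (D ∩ R1).card := by
    intro v hv hv1
    have e1 := hpriv R2 Finset.subset_union_right h2 v hv hv1
    have e2 := hkey v hv
    have e3 := hdeg v hv
    omega
  rcases Finset.mem_union.1 ((hXm v0).1 hv0).1 with h | h
  · have e1 := hA v0 hv0D h
    obtain ⟨v1, hv1⟩ : (D ∩ R2).Nonempty := Finset.card_pos.1 (by omega)
    rw [Finset.mem_inter] at hv1
    have e2 := hA' v1 hv1.1 hv1.2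
    omega
  · have e1 := hA' v0 hv0D h
    obtain ⟨v1, hv1⟩ : (D ∩ R1).Nonempty := Finset.card_pos.1 (by omega)
    rw [Finset.mem_inter] at hv1
    have e2 := hA v1 hv1.1 hv1.2
    omega

end Pool.Agent.H49X
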